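import Pool.Agent.N838.CR.Stm

/-! Project CR, leaf TRI (helper390): the spherical triangle inequality. -/

set_option autoImplicit false

namespace N390.CR

open Real N838.CR

theorem t_TRI : TRI := by
  intro p x y hp hp' hx hx' hy hy' h
  have key : (cos p - cos (x - y)) * (cos p - cos (x + y)) =
      cos x ^ 2 + cos y ^ 2 - 2 * cos p * cos x * cos y - sin p ^ 2 := by
    rw [cos_sub, cos_add]
    have e1 : sin p ^ 2 = 1 - cos p ^ 2 := sin_sq p
    have e2 : sin x ^ 2 = 1 - cos x ^ 2 := sin_sq x
    have e3 : sin y ^ 2 = 1 - cos y ^ 2 := sin_sq y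
    have e4 : (cos p - (cos x * cos y + sin x * sin y)) *
        (cos p - (cos x * cos y - sin x * sin y)) =
        (cos p - cos x * cos y) ^ 2 - sin x ^ 2 * sin y ^ 2 := by ring
    rw [e4, e2, e3, e1]
    ring
  have hprod : 0 < (cos p - cos (x - y)) * (cos p - cos (x + y)) := by
    rw [key]
    linarith
  rcases pos_and_pos_or_neg_and_neg_of_mul_pos hprod with ⟨h1, _⟩ | ⟨_, h2⟩
  · have h3 : cos |x - y| < cos p := by
      rw [cos_abs]
      linarith
    have h4 : p < |x - y| := by
      by_contra hn
      have h5 := cos_le_cos_of_nonneg_of_le_pi (abs_nonneg (x - y)) hp'.le (not_lt.1 hn)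
      linarith
    rcases lt_abs.1 h4 with h5 | h5
    · exact Or.inl (by linarith)
    · exact Or.inr (Or.inl (by linarith))
  · rcases le_total (x + y) π with h5 | h5
    · refine Or.inr (Or.inr (Or.inl ?_))
      by_contra hn
      have h6 := cos_le_cos_of_nonneg_of_le_pi hp.le h5 (not_lt.1 hn)
      linarith
    · refine Or.inr (Or.inr (Or.inr ?_))
      by_contra hn
      have h7 := not_lt.1 hn
      have h6 : cos (2 * π - (x + y)) ≤ cos p :=
        cos_le_cos_of_nonneg_of_le_pi hp.le (by linarith) (by linarith)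
      rw [cos_two_pi_sub] at h6
      linarith

end N390.CR
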